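import Pool.Agent.Helper408.Final
import Pool.Agent.Y389.RT.GR

/-!
# Directed paths with pendant oriented trees of bounded height

Owner helper950.
-/

set_option autoImplicit false

namespace Pool.Agent.H950_Spine

open Finset

/-- elimination with survivors -/
theorem elim {P : Type} [DecidableEq P] (Viol : Finset P → P → Prop) :
    ∀ (n : ℕ) (P₀ : Finset P), P₀.card = n →
      ∃ (G : Finset P) (τ : P → ℕ), G ⊆ P₀ ∧ (∀ p ∈ G, ¬ Viol (G.erase p) p) ∧
        (∀ a ∈ P₀, a ∉ G → ∀ b ∈ P₀, b ∉ G → τ a = τ b → a = b) ∧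
        ∀ p ∈ P₀, p ∉ G → Viol (P₀.filter (fun q => q ∈ G ∨ τ p < τ q)) p := by
  intro n
  induction n with
  | zero =>
    intro P₀ h0
    rw [Finset.card_eq_zero] at h0
    subst h0
    exact ⟨∅, fun _ => 0, by simp, by simp, by simp, by simp⟩
  | succ n ih =>
    intro P₀ hc
    by_cases hex : ∃ p ∈ P₀, Viol (P₀.erase p) p
    · obtain ⟨p, hp, hv⟩ := hex
      obtain ⟨G, τ, hG, hg, hi, hτ⟩ := ih (P₀.erase p) (by rw [Finset.card_erase_of_mem hp]; omega)
      have hpG : p ∉ G := fun h => absurd rfl (Finset.mem_erase.1 (hG h)).1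
      refine ⟨G, fun q => if q = p then 0 else τ q + 1, hG.trans (Finset.erase_subset _ _), hg, ?_, ?_⟩
      · intro a ha haG b hb hbG hab
        by_cases h1 : a = p
        · by_cases h2 : b = p
          · rw [h1, h2]
          · simp [h1, h2] at hab
        · by_cases h2 : b = p
          · simp [h1, h2] at hab
          · simp only [h1, h2, if_false] at hab
            exact hi a (Finset.mem_erase.2 ⟨h1, ha⟩) haG b (Finset.mem_erase.2 ⟨h2, hb⟩) hbG
              (by omega)
      · intro q hq hqG
        by_cases h1 : q = p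
        · subst h1
          have h2 : P₀.filter (fun r => r ∈ G ∨
              (if q = q then 0 else τ q + 1) < (if r = q then 0 else τ r + 1)) = P₀.erase q := by
            ext x
            simp only [Finset.mem_filter, Finset.mem_erase, if_true]
            by_cases hx : x = q
            · subst hx
              simp [hpG]
            · simp [hx]
          show Viol (P₀.filter (fun r => r ∈ G ∨
              (if q = q then 0 else τ q + 1) < (if r = q then 0 else τ r + 1))) q
          rw [h2]
          exact hv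
        · have h2 : P₀.filter (fun r => r ∈ G ∨
              (if q = p then 0 else τ q + 1) < (if r = p then 0 else τ r + 1)) =
              (P₀.erase p).filter (fun r => r ∈ G ∨ τ q < τ r) := by
            ext x
            simp only [Finset.mem_filter, Finset.mem_erase, h1, if_false]
            by_cases hx : x = p
            · subst hx
              simp [hpG]
            · simp [hx]
          show Viol (P₀.filter (fun r => r ∈ G ∨
              (if q = p then 0 else τ q + 1) < (if r = p then 0 else τ r + 1))) q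
          rw [h2]
          exact hτ q (Finset.mem_erase.2 ⟨h1, hq⟩) hqG
    · push Not at hex
      exact ⟨P₀, fun _ => 0, Finset.Subset.refl _, hex, fun a ha haG => absurd ha haG,
        fun p hp hpG => absurd hp hpG⟩

variable {V : Type} [Fintype V] [DecidableEq V]

open Classical in
noncomputable def outN (D : V → V → Prop) (S : Finset (V × ℕ)) (v : V) (i : ℕ) : Finset V :=
  univ.filter (fun w => w ≠ v ∧ D v w ∧ (w, i + 1) ∈ S)

open Classical in
noncomputable def inN (D : V → V → Prop) (S : Finset (V × ℕ)) (v : V) (i : ℕ) : Finset V :=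
  univ.filter (fun w => w ≠ v ∧ D w v ∧ (w, i - 1) ∈ S)

def Viol (D : V → V → Prop) (k h : ℕ) (S : Finset (V × ℕ)) (p : V × ℕ) : Prop :=
  (p.2 < h ∧ (outN D S p.1 p.2).card < k) ∨ (0 < p.2 ∧ (inN D S p.1 p.2).card < k)

theorem mem_outN (D : V → V → Prop) (S : Finset (V × ℕ)) (v w : V) (i : ℕ) :
    w ∈ outN D S v i ↔ w ≠ v ∧ D v w ∧ (w, i + 1) ∈ S := by
  simp [outN]

theorem mem_inN (D : V → V → Prop) (S : Finset (V × ℕ)) (v w : V) (i : ℕ) :
    w ∈ inN D S v i ↔ w ≠ v ∧ D w v ∧ (w, i - 1) ∈ S := by
  simp [inN]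

/-- extension of the spine to the whole tree -/
theorem embed (D : V → V → Prop) (k h m a : ℕ) (S : Finset (V × ℕ))
    (hout : ∀ v i, (v, i) ∈ S → i < h → k ≤ (outN D S v i).card)
    (hin : ∀ v i, (v, i) ∈ S → 0 < i → k ≤ (inN D S v i).card)
    (T : ℕ → ℕ → Prop) (par lev : ℕ → ℕ) (hlev0 : ∀ i, i ≤ m → lev i = a)
    (hh : ∀ v, v ≤ k → lev v ≤ h)
    (hpar : ∀ v, m < v → v ≤ k → par v < v ∧
      ((T (par v) v ∧ lev v = lev (par v) + 1) ∨ (T v (par v) ∧ lev (par v) = lev v + 1)))
    (harc : ∀ x y, x ≤ k → y ≤ k → T x y → (x + 1 = y ∧ y ≤ m) ∨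
      (m < y ∧ x = par y ∧ lev y = lev x + 1) ∨ (m < x ∧ y = par x ∧ lev y = lev x + 1))
    (p : ℕ → V) (hp1 : ∀ i, i ≤ m → (p i, a) ∈ S)
    (hp2 : ∀ i, i ≤ m → ∀ j, j ≤ m → p i = p j → i = j)
    (hp3 : ∀ i, i + 1 ≤ m → D (p i) (p (i + 1))) :
    ∀ n, m ≤ n → n ≤ k → ∃ f : ℕ → V, (∀ i, i ≤ n → (f i, lev i) ∈ S) ∧
      (∀ i, i ≤ n → ∀ j, j ≤ n → f i = f j → i = j) ∧
      (∀ x, x ≤ n → ∀ y, y ≤ n → T x y → D (f x) (f y)) := by
  intro n hn
  induction n, hn using Nat.le_induction with
  | base =>
    intro hmk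
    refine ⟨p, fun i hi => by rw [hlev0 i hi]; exact hp1 i hi, hp2, ?_⟩
    intro x hx y hy hxy
    rcases harc x y (by omega) (by omega) hxy with h1 | h1 | h1
    · rw [← h1.1]
      exact hp3 x (by omega)
    · omega
    · omega
  | succ n hmn ih =>
    intro hnk
    obtain ⟨f, hf1, hf2, hf3⟩ := ih (by omega)
    obtain ⟨hpv, hcase⟩ := hpar (n + 1) (by omega) hnk
    have hmain : ∀ N : Finset V, k ≤ N.card → (∀ w ∈ N, w ≠ f (par (n + 1))) →
        ∃ w ∈ N, ∀ i, i ≤ n → f i ≠ w := by
      intro N hN hNu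
      by_contra hcon
      push Not at hcon
      have hmem : f (par (n + 1)) ∈ (range (n + 1)).image f :=
        Finset.mem_image_of_mem _ (Finset.mem_range.2 (by omega))
      have h1 : N ⊆ ((range (n + 1)).image f).erase (f (par (n + 1))) := by
        intro w hw
        obtain ⟨i, hi, hfi⟩ := hcon w hw
        exact Finset.mem_erase.2 ⟨hNu w hw, Finset.mem_image.2 ⟨i, Finset.mem_range.2 (by omega), hfi⟩⟩
      have h2 := Finset.card_le_card h1
      rw [Finset.card_erase_of_mem hmem] at h2
      have h3 : ((range (n + 1)).image f).card ≤ n + 1 := by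
        simpa using (Finset.card_image_le (s := range (n + 1)) (f := f))
      omega
    obtain ⟨w, hwS, hwnew, hwR⟩ : ∃ w, (w, lev (n + 1)) ∈ S ∧ (∀ i, i ≤ n → f i ≠ w) ∧
        ((lev (n + 1) = lev (par (n + 1)) + 1 ∧ D (f (par (n + 1))) w) ∨
         (lev (par (n + 1)) = lev (n + 1) + 1 ∧ D w (f (par (n + 1))))) := by
      have hS := hf1 (par (n + 1)) (by omega)
      have hle := hh (n + 1) hnk
      rcases hcase with ⟨_, hc⟩ | ⟨_, hc⟩
      · obtain ⟨w, hw, hw2⟩ := hmain _ (hout _ _ hS (by omega))
          (fun w hw => ((mem_outN _ _ _ _ _).1 hw).1)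
        have h3 := (mem_outN _ _ _ _ _).1 hw
        refine ⟨w, ?_, hw2, Or.inl ⟨hc, h3.2.1⟩⟩
        rw [hc]
        exact h3.2.2
      · obtain ⟨w, hw, hw2⟩ := hmain _ (hin _ _ hS (by omega))
          (fun w hw => ((mem_inN _ _ _ _ _).1 hw).1)
        have h3 := (mem_inN _ _ _ _ _).1 hw
        refine ⟨w, ?_, hw2, Or.inr ⟨hc, h3.2.1⟩⟩
        have e : lev (n + 1) = lev (par (n + 1)) - 1 := by omega
        rw [e]
        exact h3.2.2
    refine ⟨Function.update f (n + 1) w, ?_, ?_, ?_⟩
    · intro i hi
      by_cases h1 : i = n + 1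
      · subst h1
        rw [Function.update_self]
        exact hwS
      · rw [Function.update_of_ne h1]
        exact hf1 i (by omega)
    · intro i hi j hj hij
      by_cases h1 : i = n + 1
      · by_cases h2 : j = n + 1
        · rw [h1, h2]
        · exfalso
          subst h1
          rw [Function.update_self, Function.update_of_ne h2] at hij
          exact hwnew j (by omega) hij.symm
      · by_cases h2 : j = n + 1
        · exfalso
          subst h2
          rw [Function.update_self, Function.update_of_ne h1] at hij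
          exact hwnew i (by omega) hij
        · rw [Function.update_of_ne h1, Function.update_of_ne h2] at hij
          exact hf2 i (by omega) j (by omega) hij
    · intro x hx y hy hxy
      have ha := harc x y (by omega) (by omega) hxy
      by_cases h1 : x = n + 1
      · by_cases h2 : y = n + 1
        · exfalso
          rcases ha with h3 | h3 | h3
          · omega
          · have := (hpar y h3.1 (by omega)).1
            omega
          · have := (hpar x h3.1 (by omega)).1
            omega
        · rcases ha with h3 | h3 | h3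
          · omega
          · have := (hpar y h3.1 (by omega)).1
            omega
          · subst h1
            rw [Function.update_self, Function.update_of_ne h2, h3.2.1]
            rcases hwR with h4 | h4
            · rw [h3.2.1] at h3
              omega
            · exact h4.2
      · by_cases h2 : y = n + 1
        · rcases ha with h3 | h3 | h3
          · omega
          · subst h2
            rw [Function.update_self, Function.update_of_ne h1, h3.2.1]
            rcases hwR with h4 | h4
            · exact h4.2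
            · rw [h3.2.1] at h3
              omega
          · have := (hpar x h3.1 (by omega)).1
            omega
        · rw [Function.update_of_ne h1, Function.update_of_ne h2]
          exact hf3 x (by omega) y (by omega) hxy

/-- **Main theorem.** -/
theorem main (D : V → V → Prop) (k h m a : ℕ) (hk : 1 ≤ k) (hmk : m ≤ k) (hah : a ≤ h)
    (hchi : ¬ (SimpleGraph.fromRel D).Colorable (h * (4 * k - 3) + m))
    (T : ℕ → ℕ → Prop) (par lev : ℕ → ℕ) (hlev0 : ∀ i, i ≤ m → lev i = a)
    (hh : ∀ v, v ≤ k → lev v ≤ h)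
    (hpar : ∀ v, m < v → v ≤ k → par v < v ∧
      ((T (par v) v ∧ lev v = lev (par v) + 1) ∨ (T v (par v) ∧ lev (par v) = lev v + 1)))
    (harc : ∀ x y, x ≤ k → y ≤ k → T x y → (x + 1 = y ∧ y ≤ m) ∨
      (m < y ∧ x = par y ∧ lev y = lev x + 1) ∨ (m < x ∧ y = par x ∧ lev y = lev x + 1)) :
    ∃ f : ℕ → V, (∀ i, i ≤ k → ∀ j, j ≤ k → f i = f j → i = j) ∧
      (∀ x, x ≤ k → ∀ y, y ≤ k → T x y → D (f x) (f y)) := by
  classical
  by_contra hno
  let P₀ : Finset (V × ℕ) := univ ×ˢ range (h + 1)
  obtain ⟨S, τ, hSP, hgood, hinj, hτ⟩ := elim (Viol D k h) P₀.card P₀ rfl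
  have hmem : ∀ v i, i ≤ h → (v, i) ∈ P₀ := by
    intro v i hi
    simp only [P₀, Finset.mem_product, Finset.mem_range, Finset.mem_univ, true_and]
    omega
  have hout : ∀ v i, (v, i) ∈ S → i < h → k ≤ (outN D S v i).card := by
    intro v i hvi hi
    by_contra hcon
    apply hgood _ hvi
    refine Or.inl ⟨hi, lt_of_le_of_lt (Finset.card_le_card ?_) (lt_of_not_ge hcon)⟩
    intro w hw
    rw [mem_outN] at hw ⊢
    exact ⟨hw.1, hw.2.1, Finset.mem_of_mem_erase hw.2.2⟩
  have hin : ∀ v i, (v, i) ∈ S → 0 < i → k ≤ (inN D S v i).card := by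
    intro v i hvi hi
    by_contra hcon
    apply hgood _ hvi
    refine Or.inr ⟨hi, lt_of_le_of_lt (Finset.card_le_card ?_) (lt_of_not_ge hcon)⟩
    intro w hw
    rw [mem_inN] at hw ⊢
    exact ⟨hw.1, hw.2.1, Finset.mem_of_mem_erase hw.2.2⟩
  -- the spine
  obtain ⟨lam, hlam1, hlam2, _, _⟩ := Pool.Agent.Y389.RT.gallai_roy
    (V := {v : V // (v, a) ∈ S}) (fun u v => D u.1 v.1 ∧ u ≠ v) (fun x hx => hx.2 rfl) m (by
      rintro ⟨L, hL1, hL2, hL3⟩
      apply hno
      have hpos : 0 < L.length := by omega
      let p : ℕ → V := fun i => if hi : i < L.length then (L[i]).1 else (L[0]).1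
      have hpe : ∀ i (hi : i < L.length), p i = (L[i]).1 := by
        intro i hi
        simp only [p, hi, dif_pos]
      obtain ⟨f, _, hf2, hf3⟩ := embed D k h m a S hout hin T par lev hlev0 hh hpar harc p
        (by
          intro i hi
          rw [hpe i (by omega)]
          exact (L[i]).2)
        (by
          intro i hi j hj hij
          rw [hpe i (by omega), hpe j (by omega)] at hij
          exact (List.Nodup.getElem_inj_iff hL2).1 (Subtype.ext hij))
        (by
          intro i hi
          rw [hpe i (by omega), hpe (i + 1) (by omega)]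
          exact ((List.isChain_iff_getElem.1 hL3) i (by omega)).1)
        k hmk le_rfl
      exact ⟨f, hf2, hf3⟩)
  -- the classes
  let L : V × ℕ → Finset (V × ℕ) := fun p => P₀.filter (fun q => q ∈ S ∨ τ p < τ q)
  let Out : V → ℕ → Prop := fun v i => i < h ∧ (outN D (L (v, i)) v i).card < k
  let In : V → ℕ → Prop := fun v i => 0 < i ∧ (inN D (L (v, i)) v i).card < k
  have hOI : ∀ v i, i ≤ h → (v, i) ∉ S → Out v i ∨ In v i :=
    fun v i hi hiS => hτ (v, i) (hmem v i hi) hiS
  let Cl : V → ℕ → Prop := fun v i => i < h ∧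
    ((a ≤ i ∧ Out v i ∧ (v, i) ∉ S ∧ ((v, i + 1) ∈ S ∨ In v (i + 1))) ∨
     (i < a ∧ In v (i + 1) ∧ (v, i + 1) ∉ S ∧ ((v, i) ∈ S ∨ Out v i)))
  have hcls : ∀ v, (v, a) ∉ S → ∃ i, Cl v i := by
    intro v hva
    by_contra hcon
    push Not at hcon
    rcases hOI v a hah hva with h0 | h0
    · have h1 : ∀ i, a ≤ i → i ≤ h → Out v i ∧ (v, i) ∉ S := by
        intro i hi
        induction i, hi using Nat.le_induction with
        | base => intro _; exact ⟨h0, hva⟩
        | succ i hai ih =>
          intro hih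
          obtain ⟨h2, h3⟩ := ih (by omega)
          have h4 : ¬ ((v, i + 1) ∈ S ∨ In v (i + 1)) := fun h5 =>
            hcon i ⟨by omega, Or.inl ⟨hai, h2, h3, h5⟩⟩
          push Not at h4
          rcases hOI v (i + 1) hih h4.1 with h6 | h6
          · exact ⟨h6, h4.1⟩
          · exact absurd h6 h4.2
      exact absurd (h1 h hah le_rfl).1.1 (lt_irrefl h)
    · have h1 : ∀ j, j ≤ a → In v (a - j) ∧ (v, a - j) ∉ S := by
        intro j
        induction j with
        | zero => intro _; exact ⟨h0, hva⟩
        | succ j ih =>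
          intro hja
          obtain ⟨h2, h3⟩ := ih (by omega)
          have e : a - j = a - (j + 1) + 1 := by omega
          rw [e] at h2 h3
          have h4 : ¬ ((v, a - (j + 1)) ∈ S ∨ Out v (a - (j + 1))) := fun h5 =>
            hcon (a - (j + 1)) ⟨by omega, Or.inr ⟨by omega, h2, h3, h5⟩⟩
          push Not at h4
          rcases hOI v (a - (j + 1)) (by omega) h4.1 with h6 | h6
          · exact absurd h6 h4.2
          · exact ⟨h6, h4.1⟩
      have h2 := (h1 a le_rfl).1.1
      omega
  have hcls' : ∀ v, ∃ i, (v, a) ∉ S → Cl v i := by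
    intro v
    by_cases hva : (v, a) ∈ S
    · exact ⟨0, fun h => absurd hva h⟩
    · obtain ⟨i, hi⟩ := hcls v hva
      exact ⟨i, fun _ => hi⟩
  choose cls hcl using hcls'
  -- arcs inside of a class
  have hAB : ∀ i v w, Cl v i → Cl w i → w ≠ v → D v w →
      (Out v i ∧ w ∈ outN D (L (v, i)) v i) ∨
      (In w (i + 1) ∧ v ∈ inN D (L (w, i + 1)) w (i + 1)) := by
    intro i v w hv hw hne hvw
    have hi : i < h := hv.1
    have hO : ((w, i + 1) ∈ S ∨ τ (v, i) < τ (w, i + 1)) → w ∈ outN D (L (v, i)) v i := by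
      intro h1
      rw [mem_outN]
      exact ⟨hne, hvw, Finset.mem_filter.2 ⟨hmem _ _ (by omega), h1⟩⟩
    have hI : ((v, i) ∈ S ∨ τ (w, i + 1) < τ (v, i)) → v ∈ inN D (L (w, i + 1)) w (i + 1) := by
      intro h1
      rw [mem_inN]
      exact ⟨hne.symm, hvw, Finset.mem_filter.2 ⟨hmem _ _ (by omega), by simpa using h1⟩⟩
    rcases hv.2 with ⟨_, hv1, hv2, _⟩ | ⟨hia, hv1, hv2, hv3⟩
    · by_cases hwS : (w, i + 1) ∈ S
      · exact Or.inl ⟨hv1, hO (Or.inl hwS)⟩
      · have hw3 : In w (i + 1) := by
          rcases hw.2 with ⟨_, _, _, h4⟩ | ⟨_, h4, _, _⟩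
          · exact h4.resolve_left hwS
          · exact h4
        have hne' : τ (v, i) ≠ τ (w, i + 1) := by
          intro he
          have := hinj _ (hmem v i (by omega)) hv2 _ (hmem w (i + 1) (by omega)) hwS he
          simp at this
        rcases lt_or_gt_of_ne hne' with h5 | h5
        · exact Or.inl ⟨hv1, hO (Or.inr h5)⟩
        · exact Or.inr ⟨hw3, hI (Or.inr h5)⟩
    · have hw1 : In w (i + 1) ∧ (w, i + 1) ∉ S := by
        rcases hw.2 with ⟨h4, _⟩ | ⟨_, h4, h5, _⟩
        · omega
        · exact ⟨h4, h5⟩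
      by_cases hvS : (v, i) ∈ S
      · exact Or.inr ⟨hw1.1, hI (Or.inl hvS)⟩
      · have hv4 : Out v i := hv3.resolve_left hvS
        have hne' : τ (v, i) ≠ τ (w, i + 1) := by
          intro he
          have := hinj _ (hmem v i (by omega)) hvS _ (hmem w (i + 1) (by omega)) hw1.2 he
          simp at this
        rcases lt_or_gt_of_ne hne' with h5 | h5
        · exact Or.inl ⟨hv4, hO (Or.inr h5)⟩
        · exact Or.inr ⟨hw1.1, hI (Or.inr h5)⟩
  set G := SimpleGraph.fromRel D with hG
  have hadj : ∀ a b, G.Adj a b ↔ a ≠ b ∧ (D a b ∨ D b a) := by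
    intro a b
    rw [hG, SimpleGraph.fromRel_adj]
  have hcol : ∀ i, ∃ c : V → Fin (4 * k - 4 + 1), ∀ x y, Cl x i → Cl y i → G.Adj x y →
      c x ≠ c y := by
    intro i
    let Gi : SimpleGraph V := SimpleGraph.mk (fun x y => G.Adj x y ∧ Cl x i ∧ Cl y i)
      (by constructor; intro x y hxy; exact ⟨hxy.1.symm, hxy.2.2, hxy.2.1⟩)
      (by constructor; intro x hx; exact G.loopless.irrefl x hx.1)
    have hGi : Gi.Colorable (4 * k - 4 + 1) := by
      apply Pool.Agent.Helper408.Final.colorable_of_degenerate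
      intro Y hY
      by_contra hcon
      push Not at hcon
      have hcY : ∀ v ∈ Y, Cl v i := by
        intro v hv
        have h1 := hcon v hv
        obtain ⟨w, hw⟩ : (Y.filter (fun w => Gi.Adj v w)).Nonempty := Finset.card_pos.1 (by omega)
        exact (Finset.mem_filter.1 hw).2.2.1
      let o : V → ℕ := fun v => (Y.filter (fun w => w ≠ v ∧ D v w)).card
      let o' : V → ℕ := fun v => (Y.filter (fun w => w ≠ v ∧ D w v)).card
      let o1 : V → ℕ := fun v => (Y.filter (fun w => Out v i ∧ w ∈ outN D (L (v, i)) v i)).card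
      let o2 : V → ℕ := fun v =>
        (Y.filter (fun w => In w (i + 1) ∧ v ∈ inN D (L (w, i + 1)) w (i + 1))).card
      have hdeg : ∀ v ∈ Y, (Y.filter (fun w => Gi.Adj v w)).card ≤ o v + o' v := by
        intro v _
        refine (Finset.card_le_card ?_).trans (Finset.card_union_le _ _)
        intro w hw
        obtain ⟨hw1, hw2, _⟩ := Finset.mem_filter.1 hw
        have hw3 := (hadj v w).1 hw2
        rw [Finset.mem_union, Finset.mem_filter, Finset.mem_filter]
        rcases hw3.2 with h1 | h1
        · exact Or.inl ⟨hw1, hw3.1.symm, h1⟩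
        · exact Or.inr ⟨hw1, hw3.1.symm, h1⟩
      have hsw : ∑ v ∈ Y, o' v = ∑ v ∈ Y, o v := by
        simp only [o, o', Finset.card_filter]
        rw [Finset.sum_comm]
        refine Finset.sum_congr rfl fun x _ => Finset.sum_congr rfl fun y _ => ?_
        congr 1
        rw [eq_iff_iff]
        constructor
        · rintro ⟨h1, h2⟩; exact ⟨h1.symm, h2⟩
        · rintro ⟨h1, h2⟩; exact ⟨h1.symm, h2⟩
      have ho : ∀ v ∈ Y, o v ≤ o1 v + o2 v := by
        intro v hv
        refine (Finset.card_le_card ?_).trans (Finset.card_union_le _ _)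
        intro w hw
        obtain ⟨hw1, hw2, hw3⟩ := Finset.mem_filter.1 hw
        rw [Finset.mem_union, Finset.mem_filter, Finset.mem_filter]
        rcases hAB i v w (hcY v hv) (hcY w hw1) hw2 hw3 with h1 | h1
        · exact Or.inl ⟨hw1, h1⟩
        · exact Or.inr ⟨hw1, h1⟩
      have ho1 : ∀ v ∈ Y, o1 v ≤ k - 1 := by
        intro v _
        by_cases hO : Out v i
        · have h2 : o1 v ≤ (outN D (L (v, i)) v i).card := by
            apply Finset.card_le_card
            intro w hw
            exact (Finset.mem_filter.1 hw).2.2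
          have := hO.2
          omega
        · have h2 : o1 v = 0 := by
            rw [Finset.card_eq_zero, Finset.filter_eq_empty_iff]
            intro w _ hw
            exact hO hw.1
          omega
      have ho2 : ∑ v ∈ Y, o2 v ≤ Y.card * (k - 1) := by
        have h1 : ∑ v ∈ Y, o2 v = ∑ w ∈ Y,
            (Y.filter (fun v => In w (i + 1) ∧ v ∈ inN D (L (w, i + 1)) w (i + 1))).card := by
          simp only [o2, Finset.card_filter]
          rw [Finset.sum_comm]
        rw [h1, ← smul_eq_mul]
        refine Finset.sum_le_card_nsmul Y _ _ ?_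
        intro w _
        by_cases hI : In w (i + 1)
        · have h4 : (Y.filter (fun v => In w (i + 1) ∧ v ∈ inN D (L (w, i + 1)) w (i + 1))).card ≤
              (inN D (L (w, i + 1)) w (i + 1)).card := by
            apply Finset.card_le_card
            intro v hv
            exact (Finset.mem_filter.1 hv).2.2
          have := hI.2
          omega
        · have h2 : (Y.filter (fun v => In w (i + 1) ∧ v ∈ inN D (L (w, i + 1)) w (i + 1))).card = 0 := by
            rw [Finset.card_eq_zero, Finset.filter_eq_empty_iff]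
            intro v _ hv
            exact hI hv.1
          omega
      have hs1 : Y.card * (4 * k - 4 + 1) ≤ ∑ v ∈ Y, (Y.filter (fun w => Gi.Adj v w)).card := by
        rw [← smul_eq_mul]
        exact Finset.card_nsmul_le_sum Y _ _ (fun v hv => hcon v hv)
      have hs2 := Finset.sum_le_sum hdeg
      rw [Finset.sum_add_distrib, hsw] at hs2
      have hs3 := Finset.sum_le_sum ho
      rw [Finset.sum_add_distrib] at hs3
      have hs4 : ∑ v ∈ Y, o1 v ≤ Y.card * (k - 1) := by
        rw [← smul_eq_mul]
        exact Finset.sum_le_card_nsmul Y _ _ ho1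
      have hpos : 0 < Y.card := Finset.card_pos.2 hY
      obtain ⟨q, rfl⟩ : ∃ q, k = q + 1 := ⟨k - 1, by omega⟩
      have e1 : 4 * (q + 1) - 4 + 1 = 4 * q + 1 := by omega
      have e2 : q + 1 - 1 = q := by omega
      rw [e1] at hs1
      rw [e2] at hs4 ho2
      nlinarith
    obtain ⟨c⟩ := hGi
    exact ⟨c, fun x y hx hy hxy => c.valid ⟨hxy, hx, hy⟩⟩
  choose c hc using hcol
  apply hchi
  have hcolor : G.Colorable (Fintype.card ((Fin h × Fin (4 * k - 4 + 1)) ⊕ Fin m)) := by
    refine (SimpleGraph.Coloring.mk (fun v =>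
      if hv : (v, a) ∈ S then (Sum.inr ⟨lam ⟨v, hv⟩, hlam1 _⟩ : (Fin h × Fin (4 * k - 4 + 1)) ⊕ Fin m)
      else Sum.inl (⟨cls v, (hcl v hv).1⟩, c (cls v) v)) ?_).colorable
    intro x y hxy heq
    by_cases hx : (x, a) ∈ S
    · by_cases hy : (y, a) ∈ S
      · simp only [hx, hy, dif_pos, Sum.inr.injEq, Fin.mk.injEq] at heq
        have h1 := (hadj x y).1 hxy
        rcases h1.2 with h2 | h2
        · exact hlam2 ⟨x, hx⟩ ⟨y, hy⟩ ⟨h2, fun he => h1.1 (congrArg Subtype.val he)⟩ heq
        · exact hlam2 ⟨y, hy⟩ ⟨x, hx⟩ ⟨h2, fun he => h1.1 (congrArg Subtype.val he).symm⟩ heq.symm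
      · simp only [hx, hy, dif_pos, dif_neg, not_false_eq_true, reduceCtorEq] at heq
    · by_cases hy : (y, a) ∈ S
      · simp only [hx, hy, dif_pos, dif_neg, not_false_eq_true, reduceCtorEq] at heq
      · simp only [hx, hy, dif_neg, not_false_eq_true, Sum.inl.injEq, Prod.mk.injEq,
          Fin.mk.injEq] at heq
        obtain ⟨h1, h2⟩ := heq
        rw [← h1] at h2
        refine hc (cls x) x y (hcl x hx) ?_ hxy h2
        rw [h1]
        exact hcl y hy
  simp only [Fintype.card_sum, Fintype.card_prod, Fintype.card_fin] at hcolor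
  have e : 4 * k - 4 + 1 = 4 * k - 3 := by omega
  rw [e] at hcolor
  exact hcolor

end Pool.Agent.H950_Spine
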